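import Pool.Agent.helper93.TV.Spec1

/-! Row tv:Q2: the second crossing relation. -/

namespace Pool.Agent.helper93.TV

open BigOperators Finset Matrix

set_option linter.unusedSectionVars false

section
variable {I V : Type} [Fintype I] [DecidableEq I] [Fintype V] [DecidableEq V]

theorem Q2_supp (D : FD I V) (F : V → V → V → V → ℂ) (hF : D.UFS F) {γ κ : V}
    (h : D.Bm F γ κ ≠ 0) : D.t γ = D.s1 κ ∧ D.du (D.s2 γ) = D.s2 κ ∧ D.s1 γ = D.t κ := by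
  obtain ⟨⟨h1, -, -, -, h5, h6⟩, -⟩ := hF.uf.conn.supp _ _ _ _ h
  refine ⟨h1, ?_, ?_⟩
  · rw [h5, D.s2_eta]
  · rw [h6, D.t_rho]

/-- the scalar -/
noncomputable def Q2nu (D : FD I V) (F : V → V → V → V → ℂ) (γ : V) : ℝ :=
  D.dm F (D.t γ) / (D.dm F (D.s1 γ) * D.dm F (D.s2 γ))

theorem Q2nu_pos (D : FD I V) (F : V → V → V → V → ℂ) (hD : D.Dims F) (γ : V) :
    0 < Q2nu D F γ := by
  unfold Q2nu
  have h1 := hD.pos (D.t γ)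
  have h2 := hD.pos (D.s1 γ)
  have h3 := hD.pos (D.s2 γ)
  positivity

theorem Q2_A (hS : S2_stmt) (hU : U2_stmt) (D : FD I V) (F : V → V → V → V → ℂ) (hF : D.UFS F)
    (hD : D.Dims F) (α γ κ δ : V) :
    F α γ κ δ = ∑ κ₀, (((Q2nu D F γ)⁻¹ : ℝ) : ℂ) * D.Bm F γ κ₀ *
      ∑ σ, star (F δ κ₀ σ α) * star (D.Bm F κ σ) := by
  have h1 : ∀ κ₀, ∑ γ', F α γ' κ δ * star (D.Bm F γ' κ₀) =
      ∑ σ, star (F δ κ₀ σ α) * star (D.Bm F κ σ) := fun κ₀ => hS hU I V D F hF α κ δ κ₀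
  have h2 : ∑ κ₀, D.Bm F γ κ₀ * ∑ γ', F α γ' κ δ * star (D.Bm F γ' κ₀) =
      (Q2nu D F γ : ℂ) * F α γ κ δ := by
    have e1 : ∀ κ₀, D.Bm F γ κ₀ * ∑ γ', F α γ' κ δ * star (D.Bm F γ' κ₀) =
        ∑ γ', F α γ' κ δ * (D.Bm F γ κ₀ * star (D.Bm F γ' κ₀)) := by
      intro κ₀
      rw [mul_sum]
      exact sum_congr rfl fun _ _ => by ring
    rw [sum_congr rfl fun κ₀ _ => e1 κ₀, sum_comm]
    have e2 : ∀ γ', ∑ κ₀, F α γ' κ δ * (D.Bm F γ κ₀ * star (D.Bm F γ' κ₀)) =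
        if γ = γ' then (Q2nu D F γ : ℂ) * F α γ κ δ else 0 := by
      intro γ'
      rw [← mul_sum, hD.BBH γ γ']
      split_ifs with h
      · subst h
        unfold Q2nu
        ring
      · ring
    rw [sum_congr rfl fun γ' _ => e2 γ', sum_ite_eq]
    simp
  have hne : (Q2nu D F γ : ℂ) ≠ 0 := by
    exact_mod_cast (Q2nu_pos D F hD γ).ne'
  have h3 : ∑ κ₀, (((Q2nu D F γ)⁻¹ : ℝ) : ℂ) * D.Bm F γ κ₀ *
      ∑ σ, star (F δ κ₀ σ α) * star (D.Bm F κ σ) =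
      (((Q2nu D F γ)⁻¹ : ℝ) : ℂ) * ∑ κ₀, D.Bm F γ κ₀ * ∑ γ', F α γ' κ δ * star (D.Bm F γ' κ₀) := by
    rw [mul_sum]
    refine sum_congr rfl fun κ₀ _ => ?_
    rw [h1 κ₀]
    ring
  rw [h3, h2, Complex.ofReal_inv]
  field_simp

theorem Q2_w (D : FD I V) (F : V → V → V → V → ℂ) (hF : D.UFS F) (hD : D.Dims F) (γ κ₀ : V) :
    (D.dm F (D.t γ) : ℂ) * ((((Q2nu D F γ)⁻¹ : ℝ) : ℂ) * D.Bm F γ κ₀) *
      (((Q2nu D F γ)⁻¹ : ℝ) : ℂ) =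
    ((D.dm F (D.t κ₀) ^ 2 * D.dm F (D.s2 κ₀) ^ 2 / D.dm F (D.s1 κ₀) : ℝ) : ℂ) * D.Bm F γ κ₀ := by
  by_cases h : D.Bm F γ κ₀ = 0
  · rw [h]; ring
  · obtain ⟨h1, h2, h3⟩ := Q2_supp D F hF h
    have h4 : D.dm F (D.s2 γ) = D.dm F (D.s2 κ₀) := by rw [← h2, hD.du]
    have p1 := hD.pos (D.t κ₀)
    have p2 := hD.pos (D.s1 κ₀)
    have p3 := hD.pos (D.s2 κ₀)
    have e : D.dm F (D.t γ) * (Q2nu D F γ)⁻¹ * (Q2nu D F γ)⁻¹ =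
        D.dm F (D.t κ₀) ^ 2 * D.dm F (D.s2 κ₀) ^ 2 / D.dm F (D.s1 κ₀) := by
      unfold Q2nu
      rw [h4, h1, h3]
      field_simp
    rw [← e]
    push_cast
    ring

theorem Q2_B (D : FD I V) (F : V → V → V → V → ℂ) (hF : D.UFS F) (hD : D.Dims F)
    (k k' : V → ℂ) :
    ∑ γ, (D.dm F (D.t γ) : ℂ) * (∑ κ₀, (((Q2nu D F γ)⁻¹ : ℝ) : ℂ) * D.Bm F γ κ₀ * k κ₀) *
      star (∑ κ₀, (((Q2nu D F γ)⁻¹ : ℝ) : ℂ) * D.Bm F γ κ₀ * k' κ₀) =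
    ∑ κ₀, ((D.dm F (D.t κ₀) * D.dm F (D.s2 κ₀) : ℝ) : ℂ) * (k κ₀ * star (k' κ₀)) := by
  have e1 : ∀ γ, (D.dm F (D.t γ) : ℂ) *
      (∑ κ₀, (((Q2nu D F γ)⁻¹ : ℝ) : ℂ) * D.Bm F γ κ₀ * k κ₀) *
      star (∑ κ₀, (((Q2nu D F γ)⁻¹ : ℝ) : ℂ) * D.Bm F γ κ₀ * k' κ₀) =
      ∑ κ₀, ∑ κ₁, (((D.dm F (D.t κ₀) ^ 2 * D.dm F (D.s2 κ₀) ^ 2 / D.dm F (D.s1 κ₀) : ℝ) : ℂ) *
        (k κ₀ * star (k' κ₁))) * (star (D.Bm F γ κ₁) * D.Bm F γ κ₀) := by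
    intro γ
    rw [star_sum, mul_assoc, sum_mul_sum, mul_sum]
    refine sum_congr rfl fun κ₀ _ => ?_
    rw [mul_sum]
    refine sum_congr rfl fun κ₁ _ => ?_
    have h := Q2_w D F hF hD γ κ₀
    have hs : star ((((Q2nu D F γ)⁻¹ : ℝ) : ℂ) * D.Bm F γ κ₁ * k' κ₁) =
        (((Q2nu D F γ)⁻¹ : ℝ) : ℂ) * star (D.Bm F γ κ₁) * star (k' κ₁) := by
      simp
    rw [hs]
    linear_combination (k κ₀ * star (k' κ₁) * star (D.Bm F γ κ₁)) * h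
  rw [sum_congr rfl fun γ _ => e1 γ, sum_comm]
  refine sum_congr rfl fun κ₀ _ => ?_
  rw [sum_comm]
  have e2 : ∀ κ₁, ∑ γ, (((D.dm F (D.t κ₀) ^ 2 * D.dm F (D.s2 κ₀) ^ 2 / D.dm F (D.s1 κ₀) : ℝ) : ℂ) *
        (k κ₀ * star (k' κ₁))) * (star (D.Bm F γ κ₁) * D.Bm F γ κ₀) =
      if κ₁ = κ₀ then ((D.dm F (D.t κ₀) * D.dm F (D.s2 κ₀) : ℝ) : ℂ) * (k κ₀ * star (k' κ₀))
        else 0 := by
    intro κ₁
    rw [← mul_sum, hD.BHB κ₁ κ₀]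
    split_ifs with h
    · subst h
      have p1 := hD.pos (D.t κ₁)
      have p2 := hD.pos (D.s1 κ₁)
      have p3 := hD.pos (D.s2 κ₁)
      have e : D.dm F (D.t κ₁) ^ 2 * D.dm F (D.s2 κ₁) ^ 2 / D.dm F (D.s1 κ₁) *
          (D.dm F (D.s1 κ₁) / (D.dm F (D.s2 κ₁) * D.dm F (D.t κ₁))) =
          D.dm F (D.t κ₁) * D.dm F (D.s2 κ₁) := by
        field_simp
      rw [← e]
      push_cast
      ring
    · ring
  rw [sum_congr rfl fun κ₁ _ => e2 κ₁, sum_ite_eq']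
  simp

theorem Q2_C (D : FD I V) (F : V → V → V → V → ℂ) (hF : D.UFS F) (α κ α' κ' : V) :
    ∑ δ, ∑ κ₀, ((D.dm F (D.t κ₀) * D.dm F (D.s2 κ₀) : ℝ) : ℂ) *
      ((∑ σ, star (F δ κ₀ σ α) * star (D.Bm F κ σ)) *
        star (∑ σ, star (F δ κ₀ σ α') * star (D.Bm F κ' σ))) =
    ∑ σ, if α = α' ∧ D.t σ = D.s2 α then
      ((D.dm F (D.t α) * D.dm F (D.s2 σ) : ℝ) : ℂ) * (D.Bm F κ' σ * star (D.Bm F κ σ)) else 0 := by
  have e1 : ∀ δ κ₀, ((D.dm F (D.t κ₀) * D.dm F (D.s2 κ₀) : ℝ) : ℂ) *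
      ((∑ σ, star (F δ κ₀ σ α) * star (D.Bm F κ σ)) *
        star (∑ σ, star (F δ κ₀ σ α') * star (D.Bm F κ' σ))) =
      ∑ σ, ∑ τ, (((D.dm F (D.t α) * D.dm F (D.s2 σ) : ℝ) : ℂ) *
        (D.Bm F κ' τ * star (D.Bm F κ σ))) * (star (F δ κ₀ σ α) * F δ κ₀ τ α') := by
    intro δ κ₀
    rw [star_sum, sum_mul_sum, mul_sum]
    refine sum_congr rfl fun σ _ => ?_
    rw [mul_sum]
    refine sum_congr rfl fun τ _ => ?_
    rw [star_mul', star_star, star_star]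
    by_cases h : F δ κ₀ σ α = 0
    · rw [h]; simp
    · obtain ⟨⟨-, -, -, -, h5, h6⟩, -⟩ := hF.uf.conn.supp _ _ _ _ h
      rw [h5, h6]
      ring
  rw [sum_congr rfl fun δ _ => sum_congr rfl fun κ₀ _ => e1 δ κ₀]
  have e2 : ∀ σ τ, ∑ δ, ∑ κ₀, (((D.dm F (D.t α) * D.dm F (D.s2 σ) : ℝ) : ℂ) *
        (D.Bm F κ' τ * star (D.Bm F κ σ))) * (star (F δ κ₀ σ α) * F δ κ₀ τ α') =
      if σ = τ then (if α = α' ∧ D.t σ = D.s2 α then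
      ((D.dm F (D.t α) * D.dm F (D.s2 σ) : ℝ) : ℂ) * (D.Bm F κ' σ * star (D.Bm F κ σ)) else 0)
      else 0 := by
    intro σ τ
    have e3 : ∑ δ, ∑ κ₀, (((D.dm F (D.t α) * D.dm F (D.s2 σ) : ℝ) : ℂ) *
        (D.Bm F κ' τ * star (D.Bm F κ σ))) * (star (F δ κ₀ σ α) * F δ κ₀ τ α') =
        (((D.dm F (D.t α) * D.dm F (D.s2 σ) : ℝ) : ℂ) *
        (D.Bm F κ' τ * star (D.Bm F κ σ))) * ∑ δ, ∑ κ₀, star (F δ κ₀ σ α) * F δ κ₀ τ α' := by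
      rw [mul_sum]
      refine sum_congr rfl fun δ _ => ?_
      rw [mul_sum]
    rw [e3]
    by_cases ht : D.t σ = D.s2 α
    · rw [hF.uf.conn.col σ α τ α' ht (mem_univ _) (mem_univ _)]
      by_cases h1 : σ = τ
      · by_cases h2 : α = α'
        · subst h1
          simp [h2, ht]
        · simp [h1, h2]
      · simp [h1]
    · have e4 : ∑ δ, ∑ κ₀, star (F δ κ₀ σ α) * F δ κ₀ τ α' = 0 := by
        refine sum_eq_zero fun δ _ => sum_eq_zero fun κ₀ _ => ?_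
        have : F δ κ₀ σ α = 0 := by
          by_contra h
          exact ht (hF.uf.conn.supp _ _ _ _ h).1.2.1
        rw [this]; simp
      rw [e4]
      simp [ht]
  have e5 : ∑ δ, ∑ κ₀, ∑ σ, ∑ τ, (((D.dm F (D.t α) * D.dm F (D.s2 σ) : ℝ) : ℂ) *
        (D.Bm F κ' τ * star (D.Bm F κ σ))) * (star (F δ κ₀ σ α) * F δ κ₀ τ α') =
      ∑ σ, ∑ τ, ∑ δ, ∑ κ₀, (((D.dm F (D.t α) * D.dm F (D.s2 σ) : ℝ) : ℂ) *
        (D.Bm F κ' τ * star (D.Bm F κ σ))) * (star (F δ κ₀ σ α) * F δ κ₀ τ α') := by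
    have a1 : ∀ δ, ∑ κ₀, ∑ σ, ∑ τ, (((D.dm F (D.t α) * D.dm F (D.s2 σ) : ℝ) : ℂ) *
        (D.Bm F κ' τ * star (D.Bm F κ σ))) * (star (F δ κ₀ σ α) * F δ κ₀ τ α') =
        ∑ σ, ∑ κ₀, ∑ τ, (((D.dm F (D.t α) * D.dm F (D.s2 σ) : ℝ) : ℂ) *
        (D.Bm F κ' τ * star (D.Bm F κ σ))) * (star (F δ κ₀ σ α) * F δ κ₀ τ α') :=
      fun δ => sum_comm
    rw [sum_congr rfl fun δ _ => a1 δ, sum_comm]
    refine sum_congr rfl fun σ _ => ?_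
    have a2 : ∀ δ, ∑ κ₀, ∑ τ, (((D.dm F (D.t α) * D.dm F (D.s2 σ) : ℝ) : ℂ) *
        (D.Bm F κ' τ * star (D.Bm F κ σ))) * (star (F δ κ₀ σ α) * F δ κ₀ τ α') =
        ∑ τ, ∑ κ₀, (((D.dm F (D.t α) * D.dm F (D.s2 σ) : ℝ) : ℂ) *
        (D.Bm F κ' τ * star (D.Bm F κ σ))) * (star (F δ κ₀ σ α) * F δ κ₀ τ α') :=
      fun δ => sum_comm
    rw [sum_congr rfl fun δ _ => a2 δ, sum_comm]
  rw [e5]
  refine sum_congr rfl fun σ _ => ?_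
  rw [sum_congr rfl fun τ _ => e2 σ τ, sum_ite_eq]
  simp

end

theorem Q2 : Q2_stmt := by
  intro hU hS I V _ _ _ _ D F hF hD α κ α' κ'
  rw [sum_comm]
  have e1 : ∀ δ, ∑ γ, (D.dm F (D.t γ) : ℂ) * F α γ κ δ * star (F α' γ κ' δ) =
      ∑ κ₀, ((D.dm F (D.t κ₀) * D.dm F (D.s2 κ₀) : ℝ) : ℂ) *
      ((∑ σ, star (F δ κ₀ σ α) * star (D.Bm F κ σ)) *
        star (∑ σ, star (F δ κ₀ σ α') * star (D.Bm F κ' σ))) := by
    intro δ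
    rw [← Q2_B D F hF hD]
    refine sum_congr rfl fun γ _ => ?_
    rw [← Q2_A hS hU D F hF hD α γ κ δ, ← Q2_A hS hU D F hF hD α' γ κ' δ]
  rw [sum_congr rfl fun δ _ => e1 δ, Q2_C D F hF α κ α' κ']
  by_cases hα : α = α'
  · by_cases hs : D.s2 α = D.s1 κ
    · have e2 : ∀ σ, (if α = α' ∧ D.t σ = D.s2 α then
          ((D.dm F (D.t α) * D.dm F (D.s2 σ) : ℝ) : ℂ) * (D.Bm F κ' σ * star (D.Bm F κ σ))
          else 0) = ((D.dm F (D.t α) * D.dm F (D.s2 κ) : ℝ) : ℂ) *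
            (D.Bm F κ' σ * star (D.Bm F κ σ)) := by
        intro σ
        by_cases hB : D.Bm F κ σ = 0
        · rw [hB]; simp
        · obtain ⟨-, h2, h3⟩ := Q2_supp D F hF hB
          have h4 : D.dm F (D.s2 κ) = D.dm F (D.s2 σ) := by rw [← h2, hD.du]
          rw [if_pos ⟨hα, by rw [← h3, hs]⟩, h4]
      rw [sum_congr rfl fun σ _ => e2 σ, ← mul_sum, hD.BBH κ' κ]
      by_cases hκ : κ = κ'
      · subst hκ
        rw [if_pos rfl, if_pos ⟨hα, rfl, hs⟩, hs]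
        have p1 := hD.pos (D.s1 κ)
        have p3 := hD.pos (D.s2 κ)
        have e : D.dm F (D.t α) * D.dm F (D.s2 κ) *
            (D.dm F (D.t κ) / (D.dm F (D.s1 κ) * D.dm F (D.s2 κ))) =
            D.dm F (D.t α) * D.dm F (D.t κ) / D.dm F (D.s1 κ) := by
          field_simp
        rw [← e]
        push_cast
        ring
      · rw [if_neg (Ne.symm hκ), if_neg (fun h => hκ h.2.1)]
        ring
    · rw [if_neg (fun h => hs h.2.2)]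
      refine sum_eq_zero fun σ _ => ?_
      split_ifs with h
      · have hB : D.Bm F κ σ = 0 := by
          by_contra hB
          obtain ⟨-, -, h3⟩ := Q2_supp D F hF hB
          exact hs (by rw [← h.2, h3])
        rw [hB]; simp
      · rfl
  · rw [if_neg (fun h => hα h.1)]
    refine sum_eq_zero fun σ _ => ?_
    rw [if_neg (fun h => hα h.1)]

end Pool.Agent.helper93.TV
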