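import Pool.Agent.helper93.TV.Spec2

/-! Row tv:SC: both families span the same space. -/

set_option linter.unusedSectionVars false

namespace Pool.Agent.helper93.TV

open BigOperators Finset Matrix

section
variable {I V : Type} [Fintype I] [DecidableEq I] [Fintype V] [DecidableEq V]

theorem SC_step_sum (D : FD I V) (X : Finset I) (c : V → V → V → V → ℂ) (n n' : ℕ) {ι : Type}
    (s : Finset ι) (ψ : ι → I → List V → List V → ℂ) (b : I) (p q : List V) :
    D.step X c n n' (fun a p q => ∑ i ∈ s, ψ i a p q) b p q =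
      ∑ i ∈ s, D.step X c n n' (ψ i) b p q := by
  unfold FD.step
  conv_rhs => rw [sum_comm]
  refine sum_congr rfl fun l _ => ?_
  conv_rhs => rw [sum_comm]
  refine sum_congr rfl fun p' _ => ?_
  conv_rhs => rw [sum_comm]
  refine sum_congr rfl fun q' _ => ?_
  conv_rhs => rw [sum_comm]
  refine sum_congr rfl fun l' _ => ?_
  rw [mul_sum, sum_mul]

theorem SC_iter_sum (D : FD I V) (X : Finset I) (c : V → V → V → V → ℂ) (n n' : ℕ) {ι : Type}
    (s : Finset ι) (T : ι → List V → List V → ℂ) (k : ℕ) :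
    D.iter X c n n' (fun p q => ∑ i ∈ s, T i p q) k =
      fun b p q => ∑ i ∈ s, D.iter X c n n' (T i) k b p q := by
  induction k with
  | zero =>
    funext a p q
    simp only [FD.iter]
    split_ifs
    · rfl
    · simp
  | succ k ih =>
    funext b p q
    change D.step X c n n' (D.iter X c n n' (fun p q => ∑ i ∈ s, T i p q) k) b p q = _
    rw [ih, SC_step_sum]
    rfl

theorem SC_Phi_sum (D : FD I V) (X : Finset I) (c : V → V → V → V → ℂ) (m n n' : ℕ) {ι : Type}
    (s : Finset ι) (T : ι → List V → List V → ℂ) (b : I) (p q : List V) :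
    D.Phi X c m n n' (fun p q => ∑ i ∈ s, T i p q) b p q =
      ∑ i ∈ s, D.Phi X c m n n' (T i) b p q := by
  unfold FD.Phi
  rw [SC_iter_sum, sum_div]

theorem SC_op_mu (D : FD I V) (X : Finset I) (m : ℕ) (bp : I → List V) (hb : D.Base X m bp)
    (b : I) : D.Op X m m (mu (bp b) (bp b)) := by
  intro p q h
  unfold mu at h
  have h1 : p = bp b ∧ q = bp b := by
    by_contra hc
    rw [if_neg hc] at h
    exact h rfl
  obtain ⟨rfl, rfl⟩ := h1
  obtain ⟨h1, h2, h3⟩ := hb b
  exact ⟨h1, h1, h2, h2, rfl⟩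

theorem SC_split {m : ℕ} {w : List V} (h1 : (w.take m).length = m) (h2 : (w.drop m).length = m) :
    w.length = 2 * m := by
  have h3 : (w.take m ++ w.drop m).length = w.length := by rw [List.take_append_drop]
  rw [List.length_append] at h3
  omega

theorem SC_op_T (D : FD I V) (X : Finset I) (c : V → V → V → V → ℂ) (m : ℕ) (bp : I → List V)
    (J : V → List V → ℂ) (hb : D.Base X m bp) (hJ : D.JS X c m bp J) (β : V) :
    D.Op X m (2 * m) (D.Tb m bp J β) := by
  intro p w h
  unfold FD.Tb at h
  have h1 : p = bp (D.t β) ∧ w.take m = bp (D.s1 β) := by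
    by_contra hc
    rw [if_neg hc] at h
    exact h rfl
  rw [if_pos h1] at h
  obtain ⟨h2, h3, h4⟩ := hJ.supp _ _ h
  obtain ⟨rfl, h5⟩ := h1
  obtain ⟨b1, b2, b3⟩ := hb (D.t β)
  obtain ⟨c1, c2, c3⟩ := hb (D.s1 β)
  have e : w = w.take m ++ w.drop m := (List.take_append_drop m w).symm
  have hw : w.length = 2 * m := SC_split (by rw [h5]; exact mem_lists.1 c1) (mem_lists.1 h2)
  refine ⟨b1, mem_lists.2 hw, b2, ?_, ?_⟩
  · rw [e, ok_append, h5]
    exact ⟨c2, by rw [c3]; exact h3⟩
  · rw [e, en_append, h5, c3, h4, b3]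

theorem SC_op_star (D : FD I V) (X : Finset I) (n n' : ℕ) (T : List V → List V → ℂ)
    (hT : D.Op X n n' T) : D.Op X n' n (fun p q => star (T q p)) := by
  intro p q h
  have h' : T q p ≠ 0 := fun h0 => h (by simp [h0])
  obtain ⟨h1, h2, h3, h4, h5⟩ := hT q p h'
  exact ⟨h2, h1, h4, h3, h5.symm⟩

/-- right side -/
theorem SC_right (D : FD I V) (X : Finset I) (c : V → V → V → V → ℂ) (m : ℕ) (bp : I → List V)
    (J : V → List V → ℂ) (hJ : D.JS X c m bp J) (a b d : I) (w w' : List V) :
    ∑ α ∈ univ.filter (fun α => D.s1 α = a ∧ D.s2 α = b),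
      ∑ γ ∈ univ.filter (fun γ => D.s1 γ = D.t α ∧ D.s2 γ = d),
        star (Lv m J α γ w) * Lv m J α γ w' =
      D.Phi X c m m m (mu (bp b) (bp b)) a (w.take m) (w'.take m) *
        D.Phi X c m m m (mu (bp d) (bp d)) (D.en a (w.take m)) (w.drop m) (w'.drop m) := by
  rw [← hJ.comp a b, sum_mul]
  refine sum_congr rfl fun α hα => ?_
  rw [mem_filter] at hα
  by_cases h0 : J α (w.take m) = 0
  · rw [h0]
    simp only [star_zero, zero_mul]
    refine sum_eq_zero fun γ _ => ?_
    unfold Lv
    rw [h0]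
    simp
  · obtain ⟨-, -, h3⟩ := hJ.supp _ _ h0
    rw [hα.2.1] at h3
    rw [h3, ← hJ.comp (D.t α) d, mul_sum]
    refine sum_congr rfl fun γ _ => ?_
    unfold Lv
    rw [star_mul']
    ring

/-- the sum over δ -/
theorem SC_delta (D : FD I V) (X : Finset I) (c : V → V → V → V → ℂ) (m : ℕ) (bp : I → List V)
    (J : V → List V → ℂ) (hC : D.Ctx X c m bp) (hK : D.Calc X c m) (hJ : D.JS X c m bp J)
    (a : I) (β : V) (w w' : List V) :
    ∑ δ ∈ univ.filter (fun δ => D.s1 δ = a ∧ D.s2 δ = D.t β),
        star (D.Rv X c m bp J β δ w) * D.Rv X c m bp J β δ w' =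
      D.Phi X c m (2 * m) (2 * m) (fun w w' => if w.take m = bp (D.s1 β) ∧
        w'.take m = bp (D.s1 β) then star (J β (w.drop m)) * J β (w'.drop m) else 0) a w w' := by
  have hb := hC.base
  have hT := SC_op_T D X c m bp J hb hJ β
  have hm3 : m ≤ 3 * m := by omega
  have hm2 : 2 * m ≤ 3 * m := by omega
  set Φ := D.Phi X c m m (2 * m) (D.Tb m bp J β) with hΦ
  have e1 : ∀ δ ∈ univ.filter (fun δ => D.s1 δ = a ∧ D.s2 δ = D.t β),
      star (D.Rv X c m bp J β δ w) * D.Rv X c m bp J β δ w' =
      ∑ p ∈ lists V m, ∑ p' ∈ lists V m, star (Φ a p w) * ((star (J δ p) * J δ p') * Φ a p' w') := by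
    intro δ hδ
    rw [mem_filter] at hδ
    unfold FD.Rv
    rw [hδ.2.1, star_sum, sum_mul_sum]
    refine sum_congr rfl fun p _ => sum_congr rfl fun p' _ => ?_
    rw [star_mul']
    ring
  rw [sum_congr rfl e1, sum_comm]
  have e2 : ∀ p ∈ lists V m, ∑ δ ∈ univ.filter (fun δ => D.s1 δ = a ∧ D.s2 δ = D.t β),
      ∑ p' ∈ lists V m, star (Φ a p w) * ((star (J δ p) * J δ p') * Φ a p' w') =
      star (Φ a p w) * Φ a p w' := by
    intro p _
    rw [sum_comm]
    have e3 : ∀ p' ∈ lists V m, ∑ δ ∈ univ.filter (fun δ => D.s1 δ = a ∧ D.s2 δ = D.t β),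
        star (Φ a p w) * ((star (J δ p) * J δ p') * Φ a p' w') =
        star (Φ a p w) * (D.Phi X c m m m (mu (bp (D.t β)) (bp (D.t β))) a p p' * Φ a p' w') := by
      intro p' _
      rw [← mul_sum, ← sum_mul, hJ.comp a (D.t β) p p']
    rw [sum_congr rfl e3, ← mul_sum]
    have e4 := hK.mul m hm3 m hm3 (2 * m) hm2 _ _ (SC_op_mu D X m bp hb (D.t β)) hT
    have e5 : (fun p q => ∑ v ∈ lists V m, mu (bp (D.t β)) (bp (D.t β)) p v * D.Tb m bp J β v q) =
        D.Tb m bp J β := by
      funext p q
      rw [sum_eq_single (bp (D.t β))]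
      · unfold mu FD.Tb
        by_cases hp : p = bp (D.t β)
        · simp [hp]
        · simp [hp]
      · intro v _ hv
        unfold mu
        rw [if_neg (fun h => hv h.2)]
        ring
      · intro h
        exact absurd (hb (D.t β)).1 h
    rw [e5] at e4
    have e6 := congrFun (congrFun (congrFun e4 a) p) w'
    rw [← hΦ] at e6
    rw [← e6]
  rw [sum_congr rfl e2]
  have e7 := hK.adj m hm3 (2 * m) hm2 _ hT
  have e8 := hK.mul (2 * m) hm2 m hm3 (2 * m) hm2 _ _ (SC_op_star D X _ _ _ hT) hT
  have e9 : (fun w w' => if w.take m = bp (D.s1 β) ∧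
        w'.take m = bp (D.s1 β) then star (J β (w.drop m)) * J β (w'.drop m) else 0) =
      (fun p q => ∑ v ∈ lists V m, star (D.Tb m bp J β v p) * D.Tb m bp J β v q) := by
    funext x y
    rw [sum_eq_single (bp (D.t β))]
    · unfold FD.Tb
      by_cases h1 : x.take m = bp (D.s1 β)
      · by_cases h2 : y.take m = bp (D.s1 β)
        · simp [h1, h2]
        · simp [h1, h2]
      · simp [h1]
    · intro v _ hv
      unfold FD.Tb
      rw [if_neg (fun h => hv h.1)]
      simp
    · intro h
      exact absurd (hb (D.t β)).1 h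
  rw [e9, e8, e7]

theorem SC_prod (D : FD I V) (X : Finset I) (c : V → V → V → V → ℂ) (m : ℕ)
    (ψ χ : I → List V → List V → ℂ)
    (hψ : ∀ a p q, ψ a p q ≠ 0 → p ∈ lists V m ∧ q ∈ lists V m ∧ D.ok X a p ∧ D.ok X a q ∧
      D.en a p = D.en a q)
    (hχ : ∀ a p q, χ a p q ≠ 0 → p ∈ lists V m ∧ q ∈ lists V m ∧ D.ok X a p ∧ D.ok X a q ∧
      D.en a p = D.en a q) (a : I) (w w' : List V) :
    ∑ v ∈ lists V (2 * m), D.rtens X m m m ψ a w v * D.ltens X m χ a v w' =
      ψ a (w.take m) (w'.take m) * χ (D.en a (w.take m)) (w.drop m) (w'.drop m) := by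
  by_cases h0 : ψ a (w.take m) (w'.take m) * χ (D.en a (w.take m)) (w.drop m) (w'.drop m) = 0
  · rw [h0]
    refine sum_eq_zero fun v _ => ?_
    by_contra hne
    have hr := left_ne_zero_of_mul hne
    have hl := right_ne_zero_of_mul hne
    unfold FD.rtens at hr
    unfold FD.ltens at hl
    have c1 : w.drop m = v.drop m ∧ w.drop m ∈ lists V m ∧
        D.ok X (D.en a (w.take m)) (w.drop m) := by
      by_contra hc
      rw [if_neg hc] at hr
      exact hr rfl
    have c2 : v.take m = w'.take m ∧ v.take m ∈ lists V m ∧ D.ok X a (v.take m) := by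
      by_contra hc
      rw [if_neg hc] at hl
      exact hl rfl
    rw [if_pos c1] at hr
    rw [if_pos c2] at hl
    rw [c2.1] at hr hl
    rw [← c1.1] at hl
    obtain ⟨-, -, -, -, h5⟩ := hψ _ _ _ hr
    rw [← h5] at hl
    exact (mul_ne_zero hr hl) h0
  · have hψ0 := left_ne_zero_of_mul h0
    have hχ0 := right_ne_zero_of_mul h0
    obtain ⟨p1, p2, p3, p4, p5⟩ := hψ _ _ _ hψ0
    obtain ⟨q1, q2, q3, q4, q5⟩ := hχ _ _ _ hχ0
    have hl2 : (w'.take m).length = m := mem_lists.1 p2
    have hl3 : (w.drop m).length = m := mem_lists.1 q1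
    have ht : (w'.take m ++ w.drop m).take m = w'.take m := by
      rw [List.take_append_of_le_length (by omega), List.take_of_length_le (by omega)]
    have hd : (w'.take m ++ w.drop m).drop m = w.drop m := by
      rw [List.drop_append_of_le_length (by omega), List.drop_of_length_le (by omega),
        List.nil_append]
    rw [sum_eq_single (w'.take m ++ w.drop m)]
    · unfold FD.rtens FD.ltens
      rw [ht, hd, if_pos ⟨rfl, q1, q3⟩, if_pos ⟨rfl, p2, p4⟩, p5]
    · intro v _ hv
      unfold FD.rtens FD.ltens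
      by_cases c1 : w.drop m = v.drop m
      · by_cases c2 : v.take m = w'.take m
        · exfalso
          apply hv
          rw [c1, ← c2, List.take_append_drop]
        · rw [if_neg (c := v.take m = w'.take m ∧ _) (fun h => c2 h.1)]
          ring
      · rw [if_neg (c := w.drop m = v.drop m ∧ _) (fun h => c1 h.1)]
        ring
    · intro h
      exfalso
      apply h
      rw [mem_lists, List.length_append]
      omega

end

theorem SC : SC_stmt := by
  intro I V _ _ _ _ D X c m bp J hC hK hJ a b d w w' hw hw'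
  have hb := hC.base
  have hm3 : m ≤ 3 * m := by omega
  have hm2 : 2 * m ≤ 3 * m := by omega
  have h2m : m + m = 2 * m := by omega
  have hmu : ∀ x, D.Op X m m (mu (bp x) (bp x)) := fun x => SC_op_mu D X m bp hb x
  have hfam : ∀ x, D.Fam X c m m (D.Phi X c m m m (mu (bp x) (bp x))) :=
    fun x => (hK.fam m hm3 m hm3 _ (hmu x)).1
  rw [SC_right D X c m bp J hJ a b d w w']
  have e1 : ∀ β ∈ univ.filter (fun β => D.s1 β = b ∧ D.s2 β = d),
      ∑ δ ∈ univ.filter (fun δ => D.s1 δ = a ∧ D.s2 δ = D.t β),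
        star (D.Rv X c m bp J β δ w) * D.Rv X c m bp J β δ w' =
      D.Phi X c m (2 * m) (2 * m) (fun w w' => if w.take m = bp b ∧
        w'.take m = bp b then star (J β (w.drop m)) * J β (w'.drop m) else 0) a w w' := by
    intro β hβ
    rw [mem_filter] at hβ
    rw [SC_delta D X c m bp J hC hK hJ a β w w', hβ.2.1]
  rw [sum_congr rfl e1, ← SC_Phi_sum]
  have hopr : D.Op X (2 * m) (2 * m) (D.rtens X m m m (fun _ => mu (bp b) (bp b)) D.o) := by
    intro x y h
    unfold FD.rtens at h
    have c1 : x.drop m = y.drop m ∧ x.drop m ∈ lists V m ∧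
        D.ok X (D.en D.o (x.take m)) (x.drop m) := by
      by_contra hc
      rw [if_neg hc] at h
      exact h rfl
    rw [if_pos c1] at h
    obtain ⟨h1, h2, h3, h4, h5⟩ := hmu b _ _ h
    have ex : x = x.take m ++ x.drop m := (List.take_append_drop m x).symm
    have ey : y = y.take m ++ y.drop m := (List.take_append_drop m y).symm
    refine ⟨mem_lists.2 (SC_split (mem_lists.1 h1) (mem_lists.1 c1.2.1)),
      mem_lists.2 (SC_split (mem_lists.1 h2) (by rw [← c1.1]; exact mem_lists.1 c1.2.1)), ?_, ?_, ?_⟩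
    · rw [ex, ok_append]
      exact ⟨h3, c1.2.2⟩
    · rw [ey, ok_append, ← c1.1, ← h5]
      exact ⟨h4, c1.2.2⟩
    · have e2 : D.en D.o x = D.en (D.en D.o (x.take m)) (x.drop m) := by
        conv_lhs => rw [ex, en_append]
      have e3 : D.en D.o y = D.en (D.en D.o (y.take m)) (y.drop m) := by
        conv_lhs => rw [ey, en_append]
      rw [e2, e3, h5, c1.1]
  have hopl : D.Op X (2 * m) (2 * m)
      (D.ltens X m (D.Phi X c m m m (mu (bp d) (bp d))) D.o) := by
    intro x y h
    unfold FD.ltens at h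
    have c1 : x.take m = y.take m ∧ x.take m ∈ lists V m ∧ D.ok X D.o (x.take m) := by
      by_contra hc
      rw [if_neg hc] at h
      exact h rfl
    rw [if_pos c1] at h
    obtain ⟨h1, h2, h3, h4, h5⟩ := (hfam d).supp _ _ _ h
    have ex : x = x.take m ++ x.drop m := (List.take_append_drop m x).symm
    have ey : y = y.take m ++ y.drop m := (List.take_append_drop m y).symm
    refine ⟨mem_lists.2 (SC_split (mem_lists.1 c1.2.1) (mem_lists.1 h1)),
      mem_lists.2 (SC_split (by rw [← c1.1]; exact mem_lists.1 c1.2.1) (mem_lists.1 h2)), ?_, ?_, ?_⟩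
    · rw [ex, ok_append]
      exact ⟨c1.2.2, h3⟩
    · rw [ey, ok_append, ← c1.1]
      exact ⟨c1.2.2, h4⟩
    · have e2 : D.en D.o x = D.en (D.en D.o (x.take m)) (x.drop m) := by
        conv_lhs => rw [ex, en_append]
      have e3 : D.en D.o y = D.en (D.en D.o (y.take m)) (y.drop m) := by
        conv_lhs => rw [ey, en_append]
      rw [e2, e3, h5, c1.1]
  have hrt := hK.rt m m m (by omega) (by omega) _ (hmu b)
  have hlt := hK.lt m m m (by omega) (by omega) _ (hmu d)
  rw [h2m] at hrt hlt
  have hmul := hK.mul (2 * m) hm2 (2 * m) hm2 (2 * m) hm2 _ _ hopr hopl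
  rw [hrt, hlt] at hmul
  have hZ : (fun p q => ∑ β ∈ univ.filter (fun β => D.s1 β = b ∧ D.s2 β = d),
      if p.take m = bp b ∧ q.take m = bp b then star (J β (p.drop m)) * J β (q.drop m) else 0) =
      (fun p q => ∑ v ∈ lists V (2 * m), D.rtens X m m m (fun _ => mu (bp b) (bp b)) D.o p v *
        D.ltens X m (D.Phi X c m m m (mu (bp d) (bp d))) D.o v q) := by
    funext p q
    by_cases hpq : p.take m = bp b ∧ q.take m = bp b
    · rw [sum_congr rfl fun β _ => if_pos hpq, hJ.comp b d]
      obtain ⟨b1, b2, b3⟩ := hb b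
      by_cases h0 : D.Phi X c m m m (mu (bp d) (bp d)) b (p.drop m) (q.drop m) = 0
      · rw [h0]
        refine (sum_eq_zero fun v _ => ?_).symm
        unfold FD.rtens FD.ltens
        by_cases c1 : p.drop m = v.drop m ∧ p.drop m ∈ lists V m ∧
            D.ok X (D.en D.o (p.take m)) (p.drop m)
        · by_cases c2 : v.take m = q.take m ∧ v.take m ∈ lists V m ∧ D.ok X D.o (v.take m)
          · rw [if_pos c1, if_pos c2, c2.1, hpq.2, b3, ← c1.1, h0]
            ring
          · rw [if_neg c2]; ring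
        · rw [if_neg c1]; ring
      · obtain ⟨q1, q2, q3, q4, q5⟩ := (hfam d).supp _ _ _ h0
        have hl2 : (q.take m).length = m := by rw [hpq.2]; exact mem_lists.1 b1
        have hl3 : (p.drop m).length = m := mem_lists.1 q1
        have ht : (q.take m ++ p.drop m).take m = q.take m := by
          rw [List.take_append_of_le_length (by omega), List.take_of_length_le (by omega)]
        have hd : (q.take m ++ p.drop m).drop m = p.drop m := by
          rw [List.drop_append_of_le_length (by omega), List.drop_of_length_le (by omega),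
            List.nil_append]
        rw [sum_eq_single (q.take m ++ p.drop m)]
        · unfold FD.rtens FD.ltens
          rw [ht, hd, if_pos ⟨rfl, q1, by rw [hpq.1, b3]; exact q3⟩,
            if_pos ⟨rfl, by rw [hpq.2]; exact b1, by rw [hpq.2]; exact b2⟩, hpq.1, hpq.2, b3]
          have hmu1 : mu (bp b) (bp b) (bp b) (bp b) = 1 := by simp [mu]
          change _ = mu (bp b) (bp b) (bp b) (bp b) * _
          rw [hmu1, one_mul]
        · intro v _ hv
          unfold FD.rtens FD.ltens
          by_cases c1 : p.drop m = v.drop m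
          · by_cases c2 : v.take m = q.take m
            · exfalso
              apply hv
              rw [c1, ← c2, List.take_append_drop]
            · rw [if_neg (c := v.take m = q.take m ∧ _) (fun h => c2 h.1)]
              ring
          · rw [if_neg (c := p.drop m = v.drop m ∧ _) (fun h => c1 h.1)]
            ring
        · intro h
          exfalso
          apply h
          rw [mem_lists, List.length_append]
          omega
    · rw [sum_congr rfl fun β _ => if_neg hpq, sum_const_zero]
      refine (sum_eq_zero fun v _ => ?_).symm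
      unfold FD.rtens FD.ltens
      by_cases c2 : v.take m = q.take m ∧ v.take m ∈ lists V m ∧ D.ok X D.o (v.take m)
      · have : mu (bp b) (bp b) (p.take m) (v.take m) = 0 := by
          unfold mu
          rw [if_neg]
          rintro ⟨h1, h2⟩
          exact hpq ⟨h1, by rw [← c2.1, h2]⟩
        beta_reduce
        rw [this]
        simp
      · rw [if_neg c2]; ring
  rw [hZ, hmul]
  exact SC_prod D X c m _ _ (hfam b).supp (hfam d).supp a w w'

end Pool.Agent.helper93.TV
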